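import Mathlib

namespace Pool.Agent.Results.MP_fbfbfd_pr.Fails
open MeasureTheory ProbabilityTheory Filter Topology Finset
open scoped ENNReal Nat

/-- `V_k = [-2^k, 2^k)` -/
def V (k : ℕ) : Set ℤ := Set.Ico (-2 ^ k) (2 ^ k)
/-- the shells `S_k` -/
def S : ℕ → Set ℤ
  | 0 => V 0
  | k + 1 => V (k + 1) \ V k
/-- the dyadic cube `[j 2^l, (j+1) 2^l)` -/
def cube (Q : ℕ × ℤ) : Set ℤ := Set.Ico (Q.2 * 2 ^ Q.1) ((Q.2 + 1) * 2 ^ Q.1)
/-- `N_α(A, S_k)` -/
noncomputable def N (α : ℝ) (A : Set ℤ) (k : ℕ) : ℝ≥0∞ :=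
  ⨅ (C : Finset (ℕ × ℤ)) (_ : A ∩ S k ⊆ ⋃ Q ∈ C, cube Q),
    ∑ Q ∈ C, ENNReal.ofReal (2 ^ (α * (Q.1 - k - 1)))
/-- macroscopic lower Hausdorff dimension -/
noncomputable def dimH (A : Set ℤ) : ℝ := sInf {α | 0 < α ∧ Tendsto (N α A) atTop (𝓝 0)}
/-- the walk with steps `ω 0, ω 1, …` -/
def X (n : ℕ) (ω : ℕ → ℤ) : ℤ := ∑ i ∈ range n, ω i
/-- potential `U(A)` of the walk with i.i.d. steps of law `μ` -/
noncomputable def U (μ : Measure ℤ) (A : Set ℤ) : ℝ≥0∞ :=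
  ∑' n, Measure.infinitePi (fun _ => μ) {ω | X n ω ∈ A}

lemma upper {α : ℝ} (hα : 1 < α) (A : Set ℤ) : Tendsto (N α A) atTop (𝓝 0) := by
  have : Tendsto (fun k : ℕ => ENNReal.ofReal (((2 : ℝ) ^ (1 - α)) ^ (k + 1))) atTop (𝓝 0) := by
    simpa using ENNReal.tendsto_ofReal ((tendsto_pow_atTop_nhds_zero_of_lt_one (by positivity)
      (Real.rpow_lt_one_of_one_lt_of_neg one_lt_two (by linarith : 1 - α < 0))).comp
      (tendsto_add_atTop_nat 1))
  refine tendsto_of_tendsto_of_tendsto_of_le_of_le tendsto_const_nhds this (fun _ => zero_le)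
    fun k => (iInf₂_le ((Ico (-2 ^ k : ℤ) (2 ^ k)).map ⟨fun j => (0, j), fun _ _ h =>
      (Prod.ext_iff.1 h).2⟩) fun x hx => ?_).trans_eq ?_
  · have : x ∈ V k := by cases k; exacts [hx.2, hx.2.1]
    exact Set.mem_biUnion (mem_coe.2 (mem_map_of_mem _ (mem_Ico.2 this))) (by simp [cube])
  · rw [sum_map]
    simp only [Function.Embedding.coeFn_mk, sum_const, Int.card_Ico, nsmul_eq_mul]
    rw [show (2 ^ k - -2 ^ k : ℤ) = (2 ^ (k + 1) : ℕ) by push_cast; ring, Int.toNat_natCast,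
      ← ENNReal.ofReal_natCast, ← ENNReal.ofReal_mul (by positivity), ← Real.rpow_natCast,
      ← Real.rpow_mul zero_le_two, Nat.cast_pow, ← Real.rpow_natCast, Nat.cast_two,
      ← Real.rpow_add two_pos]
    congr 2; push_cast; ring

lemma ge_self {ω : ℕ → ℤ} (h : ∀ i, 1 ≤ ω i) (n : ℕ) : n ≤ X n ω := by
  simpa [X] using card_nsmul_le_sum (range n) ω 1 fun i _ => h i

lemma lower {α : ℝ} (h0 : 0 < α) (h1 : α < 1) {ω : ℕ → ℤ} (h : ∀ i, 1 ≤ ω i) {k b : ℕ}
    (hb : b + 1 ≤ k) (hb' : b ≤ (1 - α) * (k + 2)) (hω : ∀ i < 2 ^ (k + 1), ω i ≤ 2 ^ b) :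
    ENNReal.ofReal (1 / 16) ≤ N α (Set.range fun n => X n ω) (k + 1) := by
  refine le_iInf₂ fun C hC => ?_
  rw [← ENNReal.ofReal_sum_of_nonneg fun _ _ => by positivity]
  refine ENNReal.ofReal_le_ofReal ?_
  have cov : Ico (2 ^ k : ℤ) (2 ^ (k + 1) - 2 ^ b) ⊆
      C.biUnion fun Q => Ico (Q.2 * 2 ^ Q.1 - 2 ^ b) ((Q.2 + 1) * 2 ^ Q.1) := fun y hy => by
    rw [mem_Ico] at hy
    have p : (0 : ℤ) < 2 ^ k ∧ (0 : ℤ) < 2 ^ b := ⟨by positivity, by positivity⟩
    have ex : ∃ n, y ≤ X n ω := ⟨y.toNat, (Int.self_le_toNat y).trans (ge_self h _)⟩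
    obtain ⟨n, hn⟩ := Nat.exists_eq_succ_of_ne_zero (n := Nat.find ex) fun h0 => by
      have := Nat.find_spec ex
      rw [h0] at this; simp only [X, range_zero, sum_empty] at this; omega
    have a1 := Nat.find_spec ex
    have a2 := Nat.find_min ex (hn ▸ n.lt_succ_self)
    have a3 := hω n (by have := ge_self h n; zify; omega)
    rw [hn, X, sum_range_succ, ← X] at a1
    obtain ⟨Q, q1, q2⟩ := Set.mem_iUnion₂.1 (hC (a := X n ω + ω n) ⟨⟨n + 1, sum_range_succ _ _⟩,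
      ⟨by omega, by omega⟩, fun h => by have := h.2; omega⟩)
    exact mem_biUnion.2 ⟨Q, q1, mem_Ico.2 ⟨by have := q2.1; omega, by have := q2.2; omega⟩⟩
  have c1 : (2 : ℝ) ^ k - 2 ^ b ≤ ∑ Q ∈ C, ((2 : ℝ) ^ Q.1 + 2 ^ b) := by
    have := (card_le_card cov).trans card_biUnion_le
    simp only [Int.card_Ico] at this
    have e : ∀ Q : ℕ × ℤ, ((Q.2 + 1) * 2 ^ Q.1 - (Q.2 * 2 ^ Q.1 - 2 ^ b)).toNat = 2 ^ Q.1 + 2 ^ b :=
      fun Q => by zify; rw [Int.toNat_of_nonneg] <;> ring_nf; positivity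
    simp only [e, Int.toNat_le] at this
    have : (2 : ℤ) ^ k - 2 ^ b ≤ ∑ Q ∈ C, ((2 : ℤ) ^ Q.1 + 2 ^ b) := by
      push_cast at this; rw [pow_succ] at this; linarith
    exact_mod_cast this
  by_cases hQ : ∃ Q ∈ C, k + 2 ≤ Q.1
  · obtain ⟨Q, q1, q2⟩ := hQ
    refine le_trans ?_ (single_le_sum (fun _ _ => by positivity) q1)
    refine le_trans (by norm_num) (Real.one_le_rpow one_le_two (mul_nonneg h0.le ?_))
    have : (k + 2 : ℝ) ≤ Q.1 := by exact_mod_cast q2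
    push_cast; linarith
  push Not at hQ
  have c2 : ∑ Q ∈ C, ((2 : ℝ) ^ Q.1 + 2 ^ b) ≤
      ∑ Q ∈ C, 2 ^ (α * (Q.1 - (k + 1 : ℕ) - 1)) * (8 * 2 ^ k) := sum_le_sum fun Q q => by
    have q1 : (Q.1 : ℝ) ≤ k + 2 := by exact_mod_cast (hQ Q q).le
    have q0 : (0 : ℝ) ≤ Q.1 := Q.1.cast_nonneg
    have e : ∀ t : ℕ, (t : ℝ) ≤ α * (Q.1 - (k + 1 : ℕ) - 1) + (k + 2 : ℕ) → (2 : ℝ) ^ t ≤
        2 ^ (α * (Q.1 - (k + 1 : ℕ) - 1)) * (4 * 2 ^ k) := fun t ht => by
      rw [show (4 : ℝ) * 2 ^ k = 2 ^ (k + 2) by ring, ← Real.rpow_natCast, ← Real.rpow_natCast,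
        ← Real.rpow_add two_pos]
      exact Real.rpow_le_rpow_of_exponent_le one_le_two ht
    linarith [e Q.1 (by push_cast; nlinarith), e b (by push_cast; nlinarith)]
  rw [← sum_mul] at c2
  have c3 : (2 : ℝ) ^ (b + 1) ≤ 2 ^ k := pow_le_pow_right₀ one_le_two hb
  refine le_of_mul_le_mul_right ?_ (show (0 : ℝ) < 8 * 2 ^ k by positivity)
  rw [pow_succ] at c3
  linarith

noncomputable def γ : Measure ℕ := geometricMeasure ⟨1 / 2, by norm_num, by norm_num⟩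
instance : IsProbabilityMeasure γ := by unfold γ; infer_instance

lemma tail (a : ℕ) : γ (Set.Ici a) = 2⁻¹ ^ a := by
  have : γ.real (range a) = 1 - 2⁻¹ ^ a := by
    rw [← sum_measureReal_singleton]
    induction a with
    | zero => simp
    | succ a ih =>
      rw [sum_range_succ, ih, γ, geometricMeasure_real_singleton (by simp [Subtype.ext_iff])]
      norm_num [← one_div]; ring
  rw [← ofReal_measureReal, ← Set.compl_Iio, probReal_compl_eq_one_sub measurableSet_Iio,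
    ← coe_range, this, sub_sub_cancel, ENNReal.ofReal_pow (by norm_num),
    ENNReal.ofReal_inv_of_pos two_pos, ENNReal.ofReal_ofNat]

def f (g : ℕ) : ℤ := 2 ^ ({j ∈ range (g + 1) | (3 * j + 2)! ≤ g}.sup fun j => (3 * j + 3)!)
noncomputable def μ : Measure ℤ := γ.map f
instance : IsProbabilityMeasure μ := Measure.isProbabilityMeasure_map (by fun_prop)

lemma t1 (j : ℕ) : 2⁻¹ ^ (3 * j + 2)! ≤ μ (Set.Ici (2 ^ (3 * j + 3)!)) := by
  rw [μ, Measure.map_apply (by fun_prop) measurableSet_Ici, ← tail]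
  refine measure_mono fun g (hg : _ ≤ g) => show _ ≤ f g from pow_le_pow_right₀ one_le_two
    (le_sup (f := fun j => (3 * j + 3)!) (b := j) (mem_filter.2 ⟨mem_range.2 ?_, hg⟩))
  have := Nat.self_le_factorial (3 * j + 2); omega

lemma t2 (j : ℕ) : μ (Set.Ioi (2 ^ (3 * j + 3)!)) ≤ 2⁻¹ ^ (3 * j + 5)! := by
  rw [μ, Measure.map_apply (by fun_prop) measurableSet_Ioi, ← tail]
  refine measure_mono fun g (hg : _ < f g) => show _ ≤ g from not_lt.1 fun h => not_le.2 hg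
    (pow_le_pow_right₀ one_le_two (Finset.sup_le fun i hi => Nat.factorial_le ?_))
  have := (Nat.factorial_lt (by omega)).1 ((mem_filter.1 hi).2.trans_lt h); omega

lemma pos : ∀ᵐ ω ∂Measure.infinitePi fun _ : ℕ => μ, ∀ i, 1 ≤ ω i := ae_all_iff.2 fun i =>
  (measurePreserving_eval_infinitePi (fun _ : ℕ => μ) i).quasiMeasurePreserving.ae
    ((ae_map_iff (by fun_prop) measurableSet_Ici).2 (.of_forall fun _ => one_le_pow₀ one_le_two))

lemma Ule (j : ℕ) {A : Set ℤ} (hA : A ⊆ Set.Iio (2 ^ (3 * j + 3)!)) : U μ A ≤ 2 ^ (3 * j + 2)! := by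
  refine (ENNReal.tsum_le_tsum (g := fun n => μ (Set.Iio (2 ^ (3 * j + 3)!)) ^ n)
    fun n => ?_).trans ?_
  · refine (measure_mono_ae (t := Set.pi (range n) fun _ => Set.Iio (2 ^ (3 * j + 3)!)) ?_).trans_eq ?_
    · filter_upwards [pos] with ω h hω i hi
      exact (single_le_sum (fun i _ => zero_le_one.trans (h i)) hi).trans_lt (hA hω)
    · rw [Measure.infinitePi_pi _ fun _ _ => measurableSet_Iio, prod_const, card_range]
  · rw [ENNReal.tsum_geometric, ← prob_compl_eq_one_sub measurableSet_Iio, Set.compl_Iio]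
    refine (ENNReal.inv_le_inv.2 (t1 j)).trans_eq ?_
    rw [ENNReal.inv_pow, inv_inv]

lemma big (n : ℕ) : n ≤ (3 * n + 3)! := le_trans (by omega) (Nat.self_le_factorial _)

theorem result : ∃ μ : Measure ℤ, IsProbabilityMeasure μ ∧ (∀ x, U μ {x} < ∞) ∧
    (∀ n, U μ (V n) < ∞) ∧
    liminf (fun n : ℕ => ((Real.logb 2 (U μ (V n)).toReal / n : ℝ) : EReal)) atTop = 0 ∧
    ∀ᵐ ω ∂Measure.infinitePi fun _ => μ, dimH (Set.range fun n => X n ω) = 1 := by
  have fin : ∀ n, U μ (V n) < ∞ := fun n => (Ule n fun x hx => hx.2.trans_le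
    (pow_le_pow_right₀ one_le_two (big n))).trans_lt (by finiteness)
  have one : ∀ n, 1 ≤ (U μ (V n)).toReal := fun n => by
    refine (ENNReal.toReal_le_toReal ENNReal.one_ne_top (fin n).ne).2 (le_trans ?_ (ENNReal.le_tsum 0))
    simp [X, V]
  refine ⟨μ, inferInstance, fun x => (Ule x.toNat fun y hy => ?_).trans_lt (by finiteness), fin,
    le_antisymm ?_ (le_liminf_of_le (h := .of_forall fun n => ?_)), ?_⟩
  · rw [hy]
    refine (Int.self_le_toNat x).trans_lt ?_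
    exact_mod_cast Nat.lt_two_pow_self.trans_le (pow_le_pow_right₀ one_le_two (big _))
  · refine le_of_forall_gt_imp_ge_of_dense fun c hc => ?_
    obtain ⟨e, e1, e2⟩ := EReal.lt_iff_exists_real_btwn.1 hc
    obtain ⟨m, hm⟩ := exists_nat_one_div_lt (EReal.coe_pos.1 e1)
    refine liminf_le_of_frequently_le' (frequently_atTop.2 fun n => ⟨(3 * (n + m) + 3)!,
      le_trans (by omega) (big _), le_trans (EReal.coe_le_coe_iff.2 (le_trans ?_ hm.le)) e2.le⟩)
    have := (ENNReal.toReal_le_toReal (fin _).ne (by finiteness)).2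
      (Ule (n + m) (A := V _) fun x hx => hx.2)
    rw [div_le_div_iff₀ (by positivity) (by positivity), one_mul]
    have l : Real.logb 2 (U μ (V (3 * (n + m) + 3)!)).toReal ≤ (3 * (n + m) + 2)! :=
      (Real.logb_le_iff_le_rpow one_lt_two (by linarith [one (3 * (n + m) + 3)!])).2
        (by simpa using this)
    refine (mul_le_mul_of_nonneg_right l (by positivity)).trans ?_
    rw [Nat.factorial_succ (3 * (n + m) + 2), mul_comm]
    norm_cast
    gcongr; omega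
  · exact EReal.coe_nonneg.2 (div_nonneg (Real.logb_nonneg one_lt_two (one n)) n.cast_nonneg)
  have bc := ae_eventually_notMem (μ := Measure.infinitePi fun _ : ℕ => μ) (s := fun j =>
    ⋃ i ∈ range (2 ^ (3 * j + 4)!), {ω | ω i ∈ Set.Ioi (2 ^ (3 * j + 3)!)})
    (ne_top_of_le_ne_top (b := ∑' j : ℕ, 2⁻¹ ^ j) (by simp) (ENNReal.tsum_le_tsum fun j => by
      refine (measure_biUnion_finset_le _ _).trans ((sum_le_card_nsmul _ _ _ fun i _ =>
        ((measurePreserving_eval_infinitePi (fun _ : ℕ => μ) i).measure_preimage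
          measurableSet_Ioi.nullMeasurableSet).trans_le (t2 j)).trans ?_)
      obtain ⟨c, hc⟩ := Nat.exists_eq_add_of_le (show (3 * j + 4)! + j ≤ (3 * j + 5)! by
        rw [Nat.factorial_succ (3 * j + 4)]; nlinarith [Nat.factorial_pos (3 * j + 4)])
      rw [hc, card_range, nsmul_eq_mul, pow_add, pow_add, ← mul_assoc, ← mul_assoc, Nat.cast_pow,
        ← mul_pow, Nat.cast_two, ENNReal.mul_inv_cancel two_ne_zero ENNReal.ofNat_ne_top, one_pow,
        one_mul]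
      exact mul_le_of_le_one_right' (pow_le_one₀ zero_le (by simp))))
  filter_upwards [pos, bc] with ω h1 h2
  refine csInf_eq_of_forall_ge_of_forall_gt_exists_lt ⟨2, two_pos, upper one_lt_two _⟩
    (fun α ⟨h0, hα⟩ => not_lt.1 fun h => ?_) fun w hw =>
      ⟨(1 + w) / 2, ⟨by linarith, upper (by linarith) _⟩, by linarith⟩
  obtain ⟨m, hm⟩ := exists_nat_one_div_lt (sub_pos.2 h)
  have t : Tendsto (fun j => (3 * j + 4)!) atTop atTop :=
    tendsto_atTop_mono (fun j => (big j).trans (Nat.factorial_le (by omega))) tendsto_id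
  obtain ⟨j, j1, j2, j3⟩ := ((t.eventually (hα.eventually (gt_mem_nhds
    (ENNReal.ofReal_pos.2 (show (0 : ℝ) < 1 / 16 by norm_num))))).and
    (h2.and (eventually_ge_atTop m))).exists
  obtain ⟨k, hk⟩ := Nat.exists_eq_add_one_of_ne_zero (Nat.factorial_ne_zero (3 * j + 4))
  rw [hk] at j1 j2
  rw [Nat.factorial_succ] at hk
  refine j1.not_ge (lower h0 h h1 (b := (3 * j + 3)!) (by nlinarith [Nat.factorial_pos (3 * j + 3)])
    ?_ fun i hi => not_lt.1 fun hh => j2 (Set.mem_biUnion (mem_coe.2 (mem_range.2 hi)) hh))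
  have : ((m + 1) * (3 * j + 3)! : ℝ) ≤ k + 2 := by
    norm_cast; nlinarith [Nat.factorial_pos (3 * j + 3)]
  rw [div_lt_iff₀ (by positivity)] at hm
  nlinarith [(Nat.cast_pos (α := ℝ)).2 (Nat.factorial_pos (3 * j + 3))]

end Pool.Agent.Results.MP_fbfbfd_pr.Fails
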